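import Pool.Agent.Helper97.RC.Corner

/-!
# RC-8, RC-9: matrix products from left ideals
-/

set_option autoImplicit false

namespace Pool.Agent.Helper63.RC

open Matrix Module

section
variable {ι : Type} [Fintype ι] [DecidableEq ι] (d : ι → ℕ) [∀ i, NeZero (d i)]

/-- RC-8 vectors in `E_{00} I`, independent modulo `J`. -/
theorem rc8_vectors (I J : Submodule ℂ (Π i, Matrix (Fin (d i)) (Fin (d i)) ℂ))
    (hI : LeftClosed I) (hJ : LeftClosed J) (i : ι) {m : ℕ}
    (hm : m + finrank ℂ (corner d J i) ≤ finrank ℂ (corner d I i)) :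
    ∃ w : Fin m → Π i, Matrix (Fin (d i)) (Fin (d i)) ℂ, (∀ l, w l ∈ I) ∧
      (∀ l, E d i 0 0 * w l = w l) ∧ ∀ c : Fin m → ℂ, ∑ l, c l • w l ∈ J → c = 0 := by
  set g : corner d I i →ₗ[ℂ] ((Π i, Matrix (Fin (d i)) (Fin (d i)) ℂ) ⧸ corner d J i) :=
    (corner d J i).mkQ ∘ₗ (corner d I i).subtype with hg
  have h1 := LinearMap.finrank_range_add_finrank_ker g
  have h2 : finrank ℂ (LinearMap.ker g) ≤ finrank ℂ (corner d J i) := by
    have h3 : ∀ x : LinearMap.ker g, ((x : corner d I i) :
        Π i, Matrix (Fin (d i)) (Fin (d i)) ℂ) ∈ corner d J i := by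
      intro x
      have h4 : g (x : corner d I i) = 0 := x.2
      exact (Submodule.Quotient.mk_eq_zero _).1 h4
    let φ : LinearMap.ker g →ₗ[ℂ] corner d J i :=
      LinearMap.codRestrict (corner d J i)
        ((corner d I i).subtype ∘ₗ (LinearMap.ker g).subtype) h3
    refine LinearMap.finrank_le_finrank_of_injective (f := φ) ?_
    intro x y hxy
    apply Subtype.ext
    apply Subtype.ext
    have h5 : ((φ x : corner d J i) : Π i, Matrix (Fin (d i)) (Fin (d i)) ℂ) = φ y := by
      rw [hxy]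
    exact h5
  have h3 : m ≤ finrank ℂ (LinearMap.range g) := by omega
  obtain ⟨v, hv⟩ := exists_linearIndependent_of_le_finrank h3
  have h4 : ∀ l, ∃ y : corner d I i, g y = v l := fun l => (v l).2
  choose y hy using h4
  refine ⟨fun l => y l, fun l => corner_le d hI i (y l).2, fun l => corner_fix d (y l).2, ?_⟩
  intro c hc
  have h5 : ∑ l, c l • (y l : Π i, Matrix (Fin (d i)) (Fin (d i)) ℂ) ∈ corner d J i := by
    refine ⟨_, hc, ?_⟩
    rw [LinearMap.mulLeft_apply, Finset.mul_sum]
    refine Finset.sum_congr rfl fun l _ => ?_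
    rw [mul_smul_comm, corner_fix d (y l).2]
  have h6 : ∑ l, c l • v l = 0 := by
    apply Subtype.ext
    rw [Submodule.coe_sum, Submodule.coe_zero]
    simp only [Submodule.coe_smul, ← hy]
    have h7 : ∑ l, c l • g (y l) = g (∑ l, c l • y l) := by
      rw [map_sum]
      refine Finset.sum_congr rfl fun l _ => ?_
      rw [map_smul]
    rw [h7, hg, LinearMap.comp_apply, Submodule.mkQ_apply, Submodule.Quotient.mk_eq_zero]
    rw [Submodule.subtype_apply, Submodule.coe_sum]
    simpa using h5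
  have h8 := Fintype.linearIndependent_iff.1 hv c h6
  funext l
  exact h8 l

/-- RC-9 extraction of matrix products. -/
theorem rc9_extract (I J : Submodule ℂ (Π i, Matrix (Fin (d i)) (Fin (d i)) ℂ))
    (hI : LeftClosed I) (hJ : LeftClosed J) {s : ℕ} (h : Cx I J s) (T : Finset ι) (D m : ℕ)
    (hD : ∀ i ∈ T, D ≤ d i)
    (hm : ∀ i ∈ T, m + finrank ℂ (corner d J i) ≤ finrank ℂ (corner d I i)) :
    DS T (Fin D) (Fin D) (Fin m) s := by
  classical
  obtain ⟨α, β, γ, hC⟩ := h
  have hw : ∀ i : T, ∃ w : Fin m → Π i, Matrix (Fin (d i)) (Fin (d i)) ℂ, (∀ l, w l ∈ I) ∧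
      (∀ l, E d i 0 0 * w l = w l) ∧ ∀ c : Fin m → ℂ, ∑ l, c l • w l ∈ J → c = 0 :=
    fun i => rc8_vectors d I J hI hJ i (hm i i.2)
  choose w hwI hwE hwJ using hw
  set em : (i : T) → Fin D → Fin (d i) := fun i j => Fin.castLE (hD i i.2) j with hem
  have heminj : ∀ i, Function.Injective (em i) := fun i => Fin.castLE_injective _
  let fL : (T → Matrix (Fin D) (Fin D) ℂ) →ₗ[ℂ] (Π i, Matrix (Fin (d i)) (Fin (d i)) ℂ) :=
    { toFun := fun X => ∑ i, ∑ p, ∑ j, X i p j • E d i (em i p) (em i j)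
      map_add' := by
        intro X Y
        simp only [Pi.add_apply, Matrix.add_apply, add_smul, Finset.sum_add_distrib]
      map_smul' := by
        intro c X
        simp only [Pi.smul_apply, Matrix.smul_apply, smul_assoc, Finset.smul_sum,
          RingHom.id_apply] }
  let xL : (T → Matrix (Fin D) (Fin m) ℂ) →ₗ[ℂ] (Π i, Matrix (Fin (d i)) (Fin (d i)) ℂ) :=
    { toFun := fun Y => ∑ i, ∑ j, ∑ l, Y i j l • (E d i (em i j) 0 * w i l)
      map_add' := by
        intro X Y
        simp only [Pi.add_apply, Matrix.add_apply, add_smul, Finset.sum_add_distrib]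
      map_smul' := by
        intro c X
        simp only [Pi.smul_apply, Matrix.smul_apply, smul_assoc, Finset.smul_sum,
          RingHom.id_apply] }
  have hxI : ∀ Y, xL Y ∈ I := by
    intro Y
    refine Submodule.sum_mem _ fun i _ => Submodule.sum_mem _ fun j _ =>
      Submodule.sum_mem _ fun l _ => Submodule.smul_mem _ _ (hI _ _ (hwI i l))
  -- left multiplication of `xL Y` by a matrix unit
  have hA : ∀ (i : T) (a : Fin (d i)) (j : Fin D) (Y : T → Matrix (Fin D) (Fin m) ℂ),
      E d i a (em i j) * xL Y = ∑ l, Y i j l • (E d i a 0 * w i l) := by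
    intro i a j Y
    show E d i a (em i j) * (∑ i', ∑ j', ∑ l, Y i' j' l • (E d i' (em i' j') 0 * w i' l)) = _
    rw [Finset.mul_sum, Finset.sum_eq_single i]
    · rw [Finset.mul_sum, Finset.sum_eq_single j]
      · rw [Finset.mul_sum]
        refine Finset.sum_congr rfl fun l _ => ?_
        rw [mul_smul_comm, ← mul_assoc, E_mul_same]
      · intro j' _ hj
        rw [Finset.mul_sum]
        refine Finset.sum_eq_zero fun l _ => ?_
        rw [mul_smul_comm, ← mul_assoc, E_mul_ne d i _ _ _ _ fun h => hj (heminj i h).symm,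
          zero_mul, smul_zero]
      · intro h
        exact absurd (Finset.mem_univ j) h
    · intro i' _ hi
      have hne : (i : ι) ≠ i' := fun h => hi (Subtype.ext h).symm
      rw [Finset.mul_sum]
      refine Finset.sum_eq_zero fun j' _ => ?_
      rw [Finset.mul_sum]
      refine Finset.sum_eq_zero fun l _ => ?_
      rw [mul_smul_comm, ← mul_assoc, E_mul_ne_block d hne, zero_mul, smul_zero]
    · intro h
      exact absurd (Finset.mem_univ i) h
  have hB : ∀ (X : T → Matrix (Fin D) (Fin D) ℂ) (Y : T → Matrix (Fin D) (Fin m) ℂ),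
      fL X * xL Y = ∑ i, ∑ p, ∑ l, (X i * Y i) p l • (E d i (em i p) 0 * w i l) := by
    intro X Y
    show (∑ i, ∑ p, ∑ j, X i p j • E d i (em i p) (em i j)) * xL Y = _
    rw [Finset.sum_mul]
    refine Finset.sum_congr rfl fun i _ => ?_
    rw [Finset.sum_mul]
    refine Finset.sum_congr rfl fun p _ => ?_
    rw [Finset.sum_mul]
    simp_rw [smul_mul_assoc, hA, Finset.smul_sum, Matrix.mul_apply, Finset.sum_smul, smul_smul]
    exact Finset.sum_comm
  -- the vectors are independent modulo `J`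
  let L : (T × Fin D × Fin m → ℂ) →ₗ[ℂ] (Π i, Matrix (Fin (d i)) (Fin (d i)) ℂ) :=
    { toFun := fun c => ∑ i, ∑ p, ∑ l, c (i, p, l) • (E d i (em i p) 0 * w i l)
      map_add' := by
        intro X Y
        simp only [Pi.add_apply, add_smul, Finset.sum_add_distrib]
      map_smul' := by
        intro c X
        simp only [Pi.smul_apply, smul_assoc, Finset.smul_sum, RingHom.id_apply] }
  have hLJ : ∀ c, L c ∈ J → c = 0 := by
    intro c hc
    funext ⟨i, p, l⟩
    -- `L c` is `xL` of the matrices of coefficients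
    have h1 : L c = xL (fun i => Matrix.of fun p l => c (i, p, l)) := rfl
    have h2 := hJ (E d i 0 (em i p)) _ hc
    rw [h1, hA] at h2
    simp only [Matrix.of_apply, hwE] at h2
    have h3 := hwJ i _ h2
    exact congrFun h3 l
  have hker : LinearMap.ker (J.mkQ ∘ₗ L) = ⊥ := by
    rw [LinearMap.ker_eq_bot']
    intro c hc
    rw [LinearMap.comp_apply, Submodule.mkQ_apply, Submodule.Quotient.mk_eq_zero] at hc
    exact hLJ c hc
  obtain ⟨g, hg⟩ := LinearMap.exists_leftInverse_of_injective (J.mkQ ∘ₗ L) hker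
  set φ : (Π i, Matrix (Fin (d i)) (Fin (d i)) ℂ) →ₗ[ℂ] (T × Fin D × Fin m → ℂ) :=
    g ∘ₗ J.mkQ with hφ
  have hφL : ∀ c, φ (L c) = c := by
    intro c
    exact LinearMap.congr_fun hg c
  have hφJ : ∀ x ∈ J, φ x = 0 := by
    intro x hx
    rw [hφ, LinearMap.comp_apply, Submodule.mkQ_apply, (Submodule.Quotient.mk_eq_zero J).2 hx,
      map_zero]
  refine ⟨fun k => (α k) ∘ₗ fL, fun k => (β k) ∘ₗ xL,
    fun k => fun i => Matrix.of fun p l => φ (γ k) (i, p, l), ?_⟩
  intro X Y
  have h1 := hφJ _ (hC (fL X) (xL Y) (hxI Y))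
  rw [map_sub, sub_eq_zero] at h1
  have h2 : fL X * xL Y = L (fun q => (X q.1 * Y q.1) q.2.1 q.2.2) := hB X Y
  rw [h2, hφL, map_sum] at h1
  funext i
  ext p l
  have h3 := congrFun h1 (i, p, l)
  simp only [Finset.sum_apply, map_smul, Pi.smul_apply, smul_eq_mul] at h3
  show (X i * Y i) p l = _
  rw [h3, Finset.sum_apply, Matrix.sum_apply]
  refine Finset.sum_congr rfl fun k _ => ?_
  rfl

end

end Pool.Agent.Helper63.RC
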