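import Pool.Agent.Helper63.RC.Defs

/-!
# RC-7: left ideals of a product of matrix algebras
-/

set_option autoImplicit false

namespace Pool.Agent.Helper63.RC

open Matrix Module

section
variable {ι : Type} [Fintype ι] [DecidableEq ι] (d : ι → ℕ) [∀ i, NeZero (d i)]

/-- the matrix unit `E_{jk}` of the block `i` -/
noncomputable def E {ι : Type} [DecidableEq ι] (d : ι → ℕ) (i : ι) (j k : Fin (d i)) :
    Π i, Matrix (Fin (d i)) (Fin (d i)) ℂ :=
  Pi.single i (Matrix.single j k 1)

/-- `I ↦ E_{00} I` -/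
noncomputable def corner (I : Submodule ℂ (Π i, Matrix (Fin (d i)) (Fin (d i)) ℂ)) (i : ι) :
    Submodule ℂ (Π i, Matrix (Fin (d i)) (Fin (d i)) ℂ) :=
  I.map (LinearMap.mulLeft ℂ (E d i 0 0))

omit [Fintype ι] [∀ i, NeZero (d i)] in
theorem E_mul_same (i : ι) (j k l : Fin (d i)) : E d i j k * E d i k l = E d i j l := by
  unfold E
  rw [← Pi.single_mul, Matrix.single_mul_single_same, mul_one]

omit [Fintype ι] [∀ i, NeZero (d i)] in
theorem E_mul_ne (i : ι) (j k k' l : Fin (d i)) (h : k ≠ k') : E d i j k * E d i k' l = 0 := by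
  unfold E
  rw [← Pi.single_mul, Matrix.single_mul_single_of_ne _ _ _ _ h, Pi.single_zero]

omit [Fintype ι] [∀ i, NeZero (d i)] in
theorem E_mul_ne_block {i i' : ι} (h : i ≠ i') (j k : Fin (d i)) (j' k' : Fin (d i')) :
    E d i j k * E d i' j' k' = 0 := by
  unfold E
  funext a
  rw [Pi.mul_apply, Pi.zero_apply]
  by_cases ha : a = i
  · subst ha
    rw [Pi.single_eq_of_ne h, mul_zero]
  · rw [Pi.single_eq_of_ne ha, zero_mul]

omit [∀ i, NeZero (d i)] in
theorem E_sum : ∑ i, ∑ j, E d i j j = 1 := by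
  have h1 : ∀ i, ∑ j, E d i j j = Pi.single i (1 : Matrix (Fin (d i)) (Fin (d i)) ℂ) := by
    intro i
    unfold E
    rw [← Matrix.sum_single_one]
    exact (map_sum (AddMonoidHom.single (fun i => Matrix (Fin (d i)) (Fin (d i)) ℂ) i) _ _).symm
  rw [Finset.sum_congr rfl fun i _ => h1 i]
  exact Finset.univ_sum_single (1 : Π i, Matrix (Fin (d i)) (Fin (d i)) ℂ)

omit [Fintype ι] in
theorem mem_corner_of_mem {I : Submodule ℂ (Π i, Matrix (Fin (d i)) (Fin (d i)) ℂ)}
    (hI : LeftClosed I) {x : Π i, Matrix (Fin (d i)) (Fin (d i)) ℂ} (hx : x ∈ I) (i : ι)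
    (j : Fin (d i)) : E d i 0 j * x ∈ corner d I i := by
  refine ⟨E d i 0 j * x, hI _ _ hx, ?_⟩
  rw [LinearMap.mulLeft_apply, ← mul_assoc, E_mul_same]

omit [Fintype ι] in
theorem corner_le {I : Submodule ℂ (Π i, Matrix (Fin (d i)) (Fin (d i)) ℂ)}
    (hI : LeftClosed I) (i : ι) : corner d I i ≤ I := by
  rintro _ ⟨x, hx, rfl⟩
  exact hI _ _ hx

omit [Fintype ι] in
theorem corner_fix {I : Submodule ℂ (Π i, Matrix (Fin (d i)) (Fin (d i)) ℂ)} {i : ι}
    {y : Π i, Matrix (Fin (d i)) (Fin (d i)) ℂ} (hy : y ∈ corner d I i) :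
    E d i 0 0 * y = y := by
  obtain ⟨x, hx, rfl⟩ := hy
  rw [LinearMap.mulLeft_apply, ← mul_assoc, E_mul_same]

/-- dimension count: `I ≃ ∏ i, (Fin (d i) → corner I i)`, `x ↦ (E_{0j}^i x)`. -/
theorem rc7_finrank (I : Submodule ℂ (Π i, Matrix (Fin (d i)) (Fin (d i)) ℂ))
    (hI : LeftClosed I) : finrank ℂ I = ∑ i, d i * finrank ℂ (corner d I i) := by
  let e : I ≃ₗ[ℂ] (Π i, (Fin (d i) → corner d I i)) :=
    { toFun := fun x i j => ⟨E d i 0 j * (x : Π i, Matrix (Fin (d i)) (Fin (d i)) ℂ),
        mem_corner_of_mem d hI x.2 i j⟩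
      map_add' := by
        intro x y
        funext i j
        apply Subtype.ext
        simp [mul_add]
      map_smul' := by
        intro c x
        funext i j
        apply Subtype.ext
        simp
      invFun := fun y => ⟨∑ i, ∑ j, E d i j 0 *
          (y i j : Π i, Matrix (Fin (d i)) (Fin (d i)) ℂ),
        Submodule.sum_mem _ fun i _ => Submodule.sum_mem _ fun j _ =>
          hI _ _ (corner_le d hI i (y i j).2)⟩
      left_inv := by
        intro x
        apply Subtype.ext
        show ∑ i, ∑ j, E d i j 0 * (E d i 0 j *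
          (x : Π i, Matrix (Fin (d i)) (Fin (d i)) ℂ)) = x
        have h1 : ∀ i, ∀ j, E d i j 0 * (E d i 0 j *
            (x : Π i, Matrix (Fin (d i)) (Fin (d i)) ℂ)) = E d i j j * x := by
          intro i j
          rw [← mul_assoc, E_mul_same]
        simp_rw [h1, ← Finset.sum_mul, E_sum, one_mul]
      right_inv := by
        intro y
        funext i j
        apply Subtype.ext
        show E d i 0 j * (∑ i', ∑ j', E d i' j' 0 *
          (y i' j' : Π i, Matrix (Fin (d i)) (Fin (d i)) ℂ)) = y i j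
        rw [Finset.mul_sum, Finset.sum_eq_single i]
        · rw [Finset.mul_sum, Finset.sum_eq_single j]
          · rw [← mul_assoc, E_mul_same]
            exact corner_fix d (y i j).2
          · intro j' _ hj
            rw [← mul_assoc, E_mul_ne d i _ _ _ _ hj.symm, zero_mul]
          · intro h
            exact absurd (Finset.mem_univ j) h
        · intro i' _ hi
          rw [Finset.mul_sum]
          refine Finset.sum_eq_zero fun j' _ => ?_
          rw [← mul_assoc, E_mul_ne_block d (Ne.symm hi), zero_mul]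
        · intro h
          exact absurd (Finset.mem_univ i) h }
  rw [e.finrank_eq, Module.finrank_pi_fintype]
  refine Finset.sum_congr rfl fun i _ => ?_
  rw [Module.finrank_pi_fintype, Finset.sum_const, Finset.card_univ, Fintype.card_fin,
    smul_eq_mul]

end

end Pool.Agent.Helper63.RC
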